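import Pool.Agent.Q92.CS.Mat
import Pool.Agent.Q92.CS.FSpace

set_option autoImplicit false

/-!
# Which unital C*-algebras have only disjoint unions of complete graphs

For a nonzero unital C*-algebra `A` every graph in `G(A)` is a disjoint union of complete graphs if
and only if Douglas factorization fails in `A`: there are `x`, `s` with `x* x ≤ s* s` but
`x ≠ w s` for all `w` with `‖w‖ ≤ 1`. For `A = C(X)`, `X` a nonempty compact Hausdorff space, this
happens if and only if `X` is not an F-space.
-/

namespace Pool.Agent.Results.MP_a554a0_an.DouglasFactorization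

open scoped ComplexOrder

variable {A : Type*} [CStarAlgebra A] [PartialOrder A] [StarOrderedRing A]

/-- The principal submatrix of `M` on the set `K` of vertices. -/
def principal {n : ℕ} (M : CStarMatrix (Fin n) (Fin n) A) (K : Finset (Fin n)) :
    CStarMatrix K K A :=
  CStarMatrix.ofMatrix fun i j => M i j

/-- `Γ ∈ G(A)`: every matrix over `A` whose principal submatrices on the cliques of `Γ` are positive
has a positive completion. -/
def InG (A : Type*) [CStarAlgebra A] [PartialOrder A] [StarOrderedRing A] {n : ℕ}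
    (Γ : SimpleGraph (Fin n)) : Prop :=
  ∀ M : CStarMatrix (Fin n) (Fin n) A,
    (∀ K : Finset (Fin n), Γ.IsClique K → 0 ≤ principal M K) →
    ∃ Y : CStarMatrix (Fin n) (Fin n) A, 0 ≤ Y ∧ ∀ i j, (i = j ∨ Γ.Adj i j) → Y i j = M i j

/-- The connected components of `Γ` are complete. -/
def DisjointUnionOfComplete {n : ℕ} (Γ : SimpleGraph (Fin n)) : Prop :=
  ∀ a b, Γ.Reachable a b → a ≠ b → Γ.Adj a b

/-- The graph `K_3^(0)`: the complete graph on three vertices without one edge. -/
def K30 : SimpleGraph (Fin 3) := (⊤ : SimpleGraph (Fin 3)).deleteEdges {s(0, 2)}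

/-- Douglas factorization: if `x* x ≤ s* s` then `x = w s` for some `w` with `‖w‖ ≤ 1`. -/
def Douglas (A : Type*) [CStarAlgebra A] [PartialOrder A] : Prop :=
  ∀ x s : A, star x * x ≤ star s * s → ∃ w : A, ‖w‖ ≤ 1 ∧ x = w * s

/-- F-spaces: disjoint cozero sets are completely separated. -/
def IsFSpace (X : Type*) [TopologicalSpace X] : Prop :=
  ∀ f g : C(X, ℝ), f * g = 0 → ∃ e : C(X, ℝ), ∀ x, (f x ≠ 0 → e x = 1) ∧ (g x ≠ 0 → e x = 0)

lemma douglas_iff : Douglas A ↔ Q92.CS.DF A := by
  simp only [Douglas, Q92.CS.DF, Q92.CS.star_mul_le_one_iff]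

lemma cluster_iff {n : ℕ} (Γ : SimpleGraph (Fin n)) :
    Q92.CS.IsCluster Γ ↔ DisjointUnionOfComplete Γ := by
  constructor
  · intro h a b hab hne
    obtain ⟨w⟩ := hab
    induction w with
    | nil => exact absurd rfl hne
    | @cons u v w huv p ih =>
      by_cases hvw : v = w
      · exact hvw ▸ huv
      · exact h u v w huv (ih hvw) hne
  · intro h a b c hab hbc hac
    exact h a c (hab.reachable.trans hbc.reachable) hac

lemma k30_iff : InG A K30 ↔ Q92.CS.DF A := by
  constructor
  · intro h
    exact Q92.CS.df_of_inG (Γ := K30) h (a := 0) (b := 1) (c := 2) (by simp [K30]) (by simp [K30])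
      (by decide) (by simp [K30])
  · intro h
    apply Q92.CS.inG_of_chordal h
    intro n hn
    by_contra hne
    rw [not_isEmpty_iff] at hne
    obtain ⟨e⟩ := hne
    have := Fintype.card_le_of_injective e e.injective
    simp at this
    omega

lemma only_clusters_iff [Nontrivial A] :
    (∀ (n : ℕ) (Γ : SimpleGraph (Fin n)), InG A Γ → DisjointUnionOfComplete Γ) ↔
      ¬ Q92.CS.DF A := by
  constructor
  · intro h hD
    have h1 := h 3 K30 (k30_iff.2 hD)
    have h2 : K30.Adj 0 2 := h1 0 2
      (((by simp [K30] : K30.Adj 0 1).reachable).trans ((by simp [K30] : K30.Adj 1 2).reachable))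
      (by decide)
    simp [K30] at h2
  · intro hD n Γ hΓ
    rw [← cluster_iff]
    by_contra hc
    exact hD (Q92.CS.df_of_not_cluster (Γ := Γ) hΓ hc)

/-- **Theorem.** (1) For a nonzero unital C*-algebra `A`, all graphs in `G(A)` are disjoint unions of
complete graphs if and only if `K_3^(0)` is not in `G(A)`, if and only if there are `x` and `s` with
`x* x ≤ s* s` which have no factorization `x = w s` with `‖w‖ ≤ 1`. (2) For a nonempty compact
Hausdorff space `X` this holds for `A = C(X)` if and only if `X` is not an F-space. -/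
theorem result :
    (∀ (A : Type) [CStarAlgebra A] [PartialOrder A] [StarOrderedRing A] [Nontrivial A],
      ((∀ (n : ℕ) (Γ : SimpleGraph (Fin n)), InG A Γ → DisjointUnionOfComplete Γ) ↔
        ∃ x s : A, star x * x ≤ star s * s ∧ ∀ w : A, ‖w‖ ≤ 1 → x ≠ w * s) ∧
      (¬ InG A K30 ↔ ∃ x s : A, star x * x ≤ star s * s ∧ ∀ w : A, ‖w‖ ≤ 1 → x ≠ w * s)) ∧
    (∀ (X : Type) [TopologicalSpace X] [CompactSpace X] [T2Space X] [Nonempty X],
      (∀ (n : ℕ) (Γ : SimpleGraph (Fin n)), InG C(X, ℂ) Γ → DisjointUnionOfComplete Γ) ↔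
        ¬ IsFSpace X) := by
  have key : ∀ (A : Type) [CStarAlgebra A] [PartialOrder A] [StarOrderedRing A],
      ¬ Q92.CS.DF A ↔ ∃ x s : A, star x * x ≤ star s * s ∧ ∀ w : A, ‖w‖ ≤ 1 → x ≠ w * s := by
    intro A _ _ _
    rw [← douglas_iff, Douglas]
    push Not
    rfl
  refine ⟨fun A _ _ _ _ => ⟨?_, ?_⟩, fun X _ _ _ _ => ?_⟩
  · rw [only_clusters_iff, key]
  · rw [k30_iff, key]
  · rw [only_clusters_iff, Q92.CS.df_iff_fspace]
    rfl

end Pool.Agent.Results.MP_a554a0_an.DouglasFactorization
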